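import Pool.Agent.W2helper90.Zombie.Torus

/-!
# The zombie number of the toroidal grid is `O(n ^ (3 / 2))`
-/

set_option autoImplicit false

namespace Pool.Agent.Results.MP_34e428_co.ZombieThreeHalves

open Finset Pool.Agent.W2helper90.Zombie Pool.Agent.W2helper90.ZombieGame

theorem survive_nonneg {V : Type} [Fintype V] [DecidableEq V] (G : SimpleGraph V) {k : ℕ}
    (σ : Strategy G k) (T : ℕ) : ∀ z h, 0 ≤ survive G σ T z h := by
  induction T with
  | zero => intro z h; simp [survive]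
  | succ T ih =>
    intro z h
    simp only [survive]
    apply Finset.sum_nonneg
    intro z' _
    apply mul_nonneg (Finset.prod_nonneg fun i _ => step_nonneg _ _ _ _)
    split_ifs
    · exact le_rfl
    · exact ih _ _

theorem surviveRounds_nonneg {V : Type} [Fintype V] [DecidableEq V] (G : SimpleGraph V) {k : ℕ}
    (σ : Strategy G k) (T : ℕ) : 0 ≤ surviveRounds G σ T := by
  unfold surviveRounds
  apply div_nonneg _ (by positivity)
  apply Finset.sum_nonneg
  intro z _
  split_ifs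
  · exact le_rfl
  · exact survive_nonneg _ _ _ _ _

theorem avoid_sum_nonneg {V : Type} [Fintype V] [DecidableEq V] (G : SimpleGraph V)
    (s : V) (π : List V) : 0 ≤ ∑ x, avoid G s π x :=
  Finset.sum_nonneg fun x _ => avoid_nonneg _ _ _ _

theorem rounds_TG (m k T : ℕ) (hT : 2 * (3 * T + 1) < m + 3)
    (σ : Strategy (TG m) k) :
    surviveRounds (TG m) σ T ≤ ((m : ℝ) + 3) ^ 2 * (5 ^ T *
      (1 - (1 + T * Real.sqrt T / 4) / ((m : ℝ) + 3) ^ 2) ^ k) := by
  have hcard : (Fintype.card (ZMod (m + 3) × ZMod (m + 3)) : ℝ) = ((m : ℝ) + 3) ^ 2 := by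
    rw [Fintype.card_prod, ZMod.card]
    push_cast
    ring
  have hpos : (0 : ℝ) < ((m : ℝ) + 3) ^ 2 := by positivity
  have hb : ∀ s π, List.length π = T → IsPath (TG m) s π →
      (∑ x, avoid (TG m) s π x) / (Fintype.card (ZMod (m + 3) × ZMod (m + 3)) : ℝ) ≤
        1 - (1 + T * Real.sqrt T / 4) / ((m : ℝ) + 3) ^ 2 := by
    intro s π hπ hp
    have h1 := sum_avoid_le π s hp (by rw [hπ]; exact_mod_cast hT)
    rw [hπ] at h1
    rw [hcard, div_le_iff₀ hpos, sub_mul, one_mul, div_mul_cancel₀ _ hpos.ne']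
    exact h1
  have hnn : 0 ≤ 1 - (1 + T * Real.sqrt T / 4) / ((m : ℝ) + 3) ^ 2 := by
    have s : ZMod (m + 3) × ZMod (m + 3) := 0
    have hp : ∀ T : ℕ, IsPath (TG m) s (List.replicate T s) := by
      intro T
      induction T with
      | zero => trivial
      | succ T ih => exact ⟨Or.inl rfl, ih⟩
    refine le_trans ?_ (hb s (List.replicate T s) (List.length_replicate ..) (hp T))
    exact div_nonneg (avoid_sum_nonneg _ _ _) (by positivity)
  refine (surviveRounds_le (TG m) σ T).trans ?_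
  calc ∑ s, pathSum (TG m) T s (fun π => ((∑ x, avoid (TG m) s π x) /
        (Fintype.card (ZMod (m + 3) × ZMod (m + 3)) : ℝ)) ^ k)
      ≤ ∑ _s : ZMod (m + 3) × ZMod (m + 3), (5 : ℝ) ^ T *
        (1 - (1 + T * Real.sqrt T / 4) / ((m : ℝ) + 3) ^ 2) ^ k := by
        apply Finset.sum_le_sum
        intro s _
        apply pathSum_le (TG m) (by norm_num) (fun s => by exact_mod_cast nb_card s)
          (pow_nonneg hnn _)
        intro π hπ hp
        exact pow_le_pow_left₀ (div_nonneg (avoid_sum_nonneg _ _ _) (by positivity))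
          (hb s π hπ hp) k
    _ = _ := by
        rw [Finset.sum_const, Finset.card_univ, nsmul_eq_mul, hcard]

theorem sq_le_exp (x : ℝ) (hx : 0 ≤ x) : x ^ 2 ≤ Real.exp x := by
  have h1 := Real.quadratic_le_exp_of_nonneg (show 0 ≤ x / 2 by positivity)
  have h2 : x ≤ Real.exp (x / 2) := by nlinarith [sq_nonneg (x - 2)]
  calc x ^ 2 ≤ Real.exp (x / 2) ^ 2 := pow_le_pow_left₀ hx h2 2
    _ = Real.exp x := by rw [← Real.exp_nat_mul]; congr 1; push_cast; ring

theorem five_pow_le (T : ℕ) : (5 : ℝ) ^ T ≤ Real.exp (2 * T) := by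
  have h1 : (5 : ℝ) ≤ Real.exp 2 := by
    have := Real.quadratic_le_exp_of_nonneg (show (0 : ℝ) ≤ 2 by norm_num)
    linarith
  calc (5 : ℝ) ^ T ≤ Real.exp 2 ^ T := pow_le_pow_left₀ (by norm_num) h1 T
    _ = Real.exp (2 * T) := by rw [← Real.exp_nat_mul]; congr 1; ring

theorem numeric (n : ℕ) (hn : 3 ≤ n) (k : ℕ) (hk : 576 * ((n : ℝ) * Real.sqrt n) ≤ k) (T : ℕ)
    (hT : T = (n - 1) / 8) :
    9 / 4 * (n : ℝ) ≤ k * ((1 + T * Real.sqrt T / 4) / (n : ℝ) ^ 2) := by
  have hn0 : (0 : ℝ) < n := by exact_mod_cast (by omega : 0 < n)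
  have hs0 : 0 < Real.sqrt n := Real.sqrt_pos.mpr hn0
  have hss : Real.sqrt n * Real.sqrt n = n := Real.mul_self_sqrt hn0.le
  have hN0 : 0 ≤ (T : ℝ) * Real.sqrt T / 4 := by positivity
  rw [← mul_div_assoc, le_div_iff₀ (by positivity)]
  by_cases h9 : 9 ≤ n
  · have hT16 : (n : ℝ) / 16 ≤ T := by
      rw [div_le_iff₀ (by norm_num)]
      have : n ≤ T * 16 := by omega
      exact_mod_cast this
    have hsT : Real.sqrt n / 4 ≤ Real.sqrt T := by
      apply Real.le_sqrt_of_sq_le
      rw [div_pow, Real.sq_sqrt hn0.le]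
      linarith
    have hprod : (n : ℝ) * Real.sqrt n / 64 ≤ T * Real.sqrt T := by
      calc (n : ℝ) * Real.sqrt n / 64 = (n / 16) * (Real.sqrt n / 4) := by ring
        _ ≤ T * Real.sqrt T := mul_le_mul hT16 hsT (by positivity) (by positivity)
    calc 9 / 4 * (n : ℝ) * (n : ℝ) ^ 2
        = 576 * ((n : ℝ) * Real.sqrt n) * ((n : ℝ) * Real.sqrt n / 64 / 4) := by
          have : (n : ℝ) * Real.sqrt n * ((n : ℝ) * Real.sqrt n) = n ^ 3 := by
            calc (n : ℝ) * Real.sqrt n * ((n : ℝ) * Real.sqrt n)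
                = n ^ 2 * (Real.sqrt n * Real.sqrt n) := by ring
              _ = n ^ 3 := by rw [hss]; ring
          linear_combination (-(9 / 4 : ℝ)) * this
      _ ≤ k * (1 + T * Real.sqrt T / 4) := by
          apply mul_le_mul hk _ (by positivity) (by positivity)
          linarith
  · have h8 : (n : ℝ) ≤ 8 := by exact_mod_cast (by omega : n ≤ 8)
    have hs3 : Real.sqrt n ≤ 3 := by
      rw [show (3 : ℝ) = Real.sqrt (3 ^ 2) by rw [Real.sqrt_sq]; norm_num]
      exact Real.sqrt_le_sqrt (by linarith)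
    have h1 : (k : ℝ) ≤ k * (1 + T * Real.sqrt T / 4) :=
      le_mul_of_one_le_right (by positivity) (by linarith)
    refine le_trans ?_ h1
    refine le_trans ?_ hk
    have h2 : (n : ℝ) ^ 2 = Real.sqrt n * (n * Real.sqrt n) := by
      calc (n : ℝ) ^ 2 = n * n := by ring
        _ = n * (Real.sqrt n * Real.sqrt n) := by rw [hss]
        _ = _ := by ring
    rw [h2]
    have h3 : 0 < (n : ℝ) * Real.sqrt n := by positivity
    nlinarith [mul_le_mul h8 hs3 hs0.le (by norm_num : (0 : ℝ) ≤ 8)]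

/-- **The bound**: with `k ≥ 576 n ^ (3 / 2)` zombies on the toroidal `n × n` grid the survivor
survives with probability at most `exp (-n)`, and so the zombie number is at most
`577 n ^ (3 / 2)`. -/
theorem result (n : ℕ) (hn : 3 ≤ n) :
    (∀ k : ℕ, 576 * (n : ℝ) ^ (3 / 2 : ℝ) ≤ k →
      survivalProbability (torus n) k ≤ Real.exp (-(n : ℝ))) ∧
    (zombieNumber (torus n) : ℝ) ≤ 577 * (n : ℝ) ^ (3 / 2 : ℝ) := by
  have hn0 : (0 : ℝ) < n := by exact_mod_cast (by omega : 0 < n)
  have hrp : (n : ℝ) ^ (3 / 2 : ℝ) = (n : ℝ) * Real.sqrt n := by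
    rw [show (3 / 2 : ℝ) = 1 + 1 / 2 by norm_num, Real.rpow_add hn0, Real.rpow_one,
      Real.sqrt_eq_rpow]
  rw [hrp]
  obtain ⟨m, rfl⟩ : ∃ m, n = m + 3 := ⟨n - 3, by omega⟩
  have main : ∀ k : ℕ, 576 * (((m + 3 : ℕ) : ℝ) * Real.sqrt ((m + 3 : ℕ) : ℝ)) ≤ k →
      survivalProbability (torus (m + 3)) k ≤ Real.exp (-((m + 3 : ℕ) : ℝ)) := by
    intro k hk
    have hrounds : ∀ σ : Strategy (torus (m + 3)) k,
        surviveRounds (torus (m + 3)) σ ((m + 3 - 1) / 8) ≤ Real.exp (-((m + 3 : ℕ) : ℝ)) := by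
      intro σ
      set T := (m + 3 - 1) / 8 with hT
      have h1 : surviveRounds (torus (m + 3)) σ T ≤ ((m : ℝ) + 3) ^ 2 * (5 ^ T *
          (1 - (1 + T * Real.sqrt T / 4) / ((m : ℝ) + 3) ^ 2) ^ k) :=
        rounds_TG m k T (by omega) σ
      have h2 := numeric (m + 3) hn k hk T hT
      have h3 := sq_le_exp ((m : ℝ) + 3) (by positivity)
      have h4 := five_pow_le T
      have hcast : ((m + 3 : ℕ) : ℝ) = (m : ℝ) + 3 := by push_cast; ring
      rw [hcast] at h2 ⊢
      set N := (1 + T * Real.sqrt T / 4) / ((m : ℝ) + 3) ^ 2 with hN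
      have hN1 : 0 ≤ 1 - N := by
        have hp : ∀ T : ℕ, IsPath (TG m) 0 (List.replicate T 0) := by
          intro T
          induction T with
          | zero => trivial
          | succ T ih => exact ⟨Or.inl rfl, ih⟩
        have h5 := sum_avoid_le (List.replicate T 0) 0 (hp T) (by
          rw [List.length_replicate]; omega)
        rw [List.length_replicate] at h5
        have h6 := avoid_sum_nonneg (TG m) 0 (List.replicate T 0)
        have h7 : (1 + T * Real.sqrt T / 4) ≤ ((m : ℝ) + 3) ^ 2 := by linarith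
        have h8 : N ≤ 1 := by
          rw [hN, div_le_one (by positivity)]
          exact h7
        linarith
      have h5 : (1 - N) ^ k ≤ Real.exp (-(9 / 4 * ((m : ℝ) + 3))) := by
        calc (1 - N) ^ k ≤ Real.exp (-N) ^ k :=
              pow_le_pow_left₀ hN1 (Real.one_sub_le_exp_neg N) k
          _ = Real.exp (-(k * N)) := by rw [← Real.exp_nat_mul]; congr 1; ring
          _ ≤ _ := Real.exp_le_exp.mpr (by linarith)
      have hT8 : 2 * (T : ℝ) ≤ ((m : ℝ) + 3) / 4 := by
        have : T * 8 ≤ m + 3 := by omega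
        have : (T : ℝ) * 8 ≤ (m : ℝ) + 3 := by exact_mod_cast this
        linarith
      calc surviveRounds (torus (m + 3)) σ T
          ≤ ((m : ℝ) + 3) ^ 2 * (5 ^ T * (1 - N) ^ k) := h1
        _ ≤ Real.exp ((m : ℝ) + 3) *
            (Real.exp (((m : ℝ) + 3) / 4) * Real.exp (-(9 / 4 * ((m : ℝ) + 3)))) := by
            apply mul_le_mul h3 _ (by positivity) (by positivity)
            apply mul_le_mul (h4.trans (Real.exp_le_exp.mpr hT8)) h5 (by positivity)
              (by positivity)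
        _ = Real.exp (-((m : ℝ) + 3)) := by
            rw [← Real.exp_add, ← Real.exp_add]
            congr 1
            ring
    unfold survivalProbability
    apply Real.iSup_le _ (Real.exp_pos _).le
    intro σ
    refine (ciInf_le ?_ ((m + 3 - 1) / 8)).trans (hrounds σ)
    exact ⟨0, by rintro _ ⟨T, rfl⟩; exact surviveRounds_nonneg _ _ _⟩
  refine ⟨main, ?_⟩
  set x := ((m + 3 : ℕ) : ℝ) * Real.sqrt ((m + 3 : ℕ) : ℝ) with hx
  have hx1 : 1 ≤ x := by
    have h1 : (1 : ℝ) ≤ ((m + 3 : ℕ) : ℝ) := by exact_mod_cast (by omega : 1 ≤ m + 3)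
    have h2 : (1 : ℝ) ≤ Real.sqrt ((m + 3 : ℕ) : ℝ) := Real.one_le_sqrt.mpr h1
    nlinarith
  have h1 : zombieNumber (torus (m + 3)) ≤ ⌈576 * x⌉₊ := by
    apply Nat.sInf_le
    refine (main _ (Nat.le_ceil _)).trans ?_
    have h2 : Real.exp (-((m + 3 : ℕ) : ℝ)) ≤ Real.exp (-1) := by
      apply Real.exp_le_exp.mpr
      have : (1 : ℝ) ≤ ((m + 3 : ℕ) : ℝ) := by exact_mod_cast (by omega : 1 ≤ m + 3)
      linarith
    have h3 : Real.exp (-1) ≤ 1 / 2 := by
      rw [Real.exp_neg, inv_eq_one_div]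
      apply one_div_le_one_div_of_le (by norm_num)
      have := Real.add_one_le_exp (1 : ℝ)
      linarith
    exact h2.trans h3
  calc (zombieNumber (torus (m + 3)) : ℝ) ≤ (⌈576 * x⌉₊ : ℝ) := by exact_mod_cast h1
    _ ≤ 576 * x + 1 := (Nat.ceil_lt_add_one (by positivity)).le
    _ ≤ 577 * x := by linarith

end Pool.Agent.Results.MP_34e428_co.ZombieThreeHalves
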